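import Mathlib
import Pool.Agent.Q78.PCB.Defs
import Pool.Agent.Q78.PCB.Main

/-!
# MP_f6bc98_an : a solvable group of interval exchanges with flips that is not realizable

The definitions (the group `PC` of bijections of the circle which are continuous off a finite
set, its quotient `PCBow` by the finitely supported permutations, the set `IETBow` of classes of
piecewise isometric bijections, and `Realizable`) are in `Pool.Agent.Q78.PCB.Defs`.
-/

namespace Pool.Agent.Results.MP_f6bc98_an.NonRealizableSolvable

open Q78.PCB

/-- There is a finitely generated solvable subgroup of `IET^⋈(S)`, hence of `PC^⋈(S)`, which is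
not realizable. -/
theorem result : ∃ Γ : Subgroup PCBow,
    Γ.FG ∧ Group.IsSolvable Γ ∧ (Γ : Set PCBow) ⊆ IETBow ∧ ¬ Realizable Γ :=
  ⟨Gam, Gam_fg, Gam_solvable, Gam_iet, Gam_not_realizable⟩

end Pool.Agent.Results.MP_f6bc98_an.NonRealizableSolvable
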